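import Pool.Agent.T2H38.CP.Words
import Pool.Agent.T2H38.SS.Rel

/-!
# Fields with separated signs
-/

set_option autoImplicit false
set_option linter.unusedSectionVars false

open CategoryTheory AlgebraicGeometry NumberField Module

universe u v

namespace Pool.Agent.T2H38.CP

open Pool.Agent.H914 Pool.Agent.H914.VarClass Pool.Agent.H914.VarClass.Obj
  Pool.Agent.H914.WeilCohomology Pool.Agent.Y132.AH

section transport

variable {K : Type} [Field K] (e : K ≃+* ℂ)

/-- the corresponding automorphism of `ℂ` -/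
def toAut (τ : RingAut K) : ℂ ≃+* ℂ := (e.symm.trans τ).trans e

/-- the automorphism of `K` given by an automorphism of `ℂ` -/
def ofAut (τ : ℂ ≃+* ℂ) : RingAut K := (e.trans τ).trans e.symm

theorem toAut_ofAut (τ : ℂ ≃+* ℂ) : toAut e (ofAut e τ) = τ := by
  ext x
  simp [toAut, ofAut]

theorem ofAut_toAut (τ : RingAut K) : ofAut e (toAut e τ) = τ := by
  ext x
  change e.symm (e (τ (e.symm (e x)))) = τ x
  simp

variable {F : Type} [Field F]

/-- the corresponding complex embedding -/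
def toEmb (σ : F →+* K) : F →+* ℂ := (e : K →+* ℂ).comp σ

/-- the embedding into `K` given by a complex embedding -/
def ofEmb (φ : F →+* ℂ) : F →+* K := (e.symm : ℂ →+* K).comp φ

theorem toEmb_ofEmb (φ : F →+* ℂ) : toEmb e (ofEmb e φ) = φ := by
  ext x
  simp [toEmb, ofEmb]

theorem ofEmb_toEmb (σ : F →+* K) : ofEmb e (toEmb e σ) = σ := by
  ext x
  simp [toEmb, ofEmb]

/-- the bijection of the embeddings -/
def embEquiv : (F →+* K) ≃ (F →+* ℂ) where
  toFun := toEmb e
  invFun := ofEmb e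
  left_inv := ofEmb_toEmb e
  right_inv := toEmb_ofEmb e

theorem toEmb_act (τ : RingAut K) (σ : F →+* K) :
    toEmb e (act τ σ) = (toAut e τ : ℂ →+* ℂ).comp (toEmb e σ) := by
  ext x
  change e (τ (σ x)) = e (τ (e.symm (e (σ x))))
  rw [RingEquiv.symm_apply_apply]

theorem ofEmb_comp (τ : ℂ ≃+* ℂ) (φ : F →+* ℂ) :
    ofEmb e ((τ : ℂ →+* ℂ).comp φ) = act (ofAut e τ) (ofEmb e φ) := by
  ext x
  change e.symm (τ (φ x)) = e.symm (τ (e (e.symm (φ x))))
  rw [RingEquiv.apply_symm_apply]

variable [NumberField F] [IsCMField F]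

theorem toEmb_bar (σ : F →+* K) :
    toEmb e (bar σ) = ComplexEmbedding.conjugate (toEmb e σ) := by
  ext x
  change toEmb e σ (IsCMField.complexConj F x) = _
  rw [IsCMField.complexEmbedding_complexConj]
  rfl

theorem ofEmb_conj (φ : F →+* ℂ) :
    ofEmb e (ComplexEmbedding.conjugate φ) = bar (ofEmb e φ) := by
  apply (embEquiv e).injective
  change toEmb e (ofEmb e _) = toEmb e (bar _)
  rw [toEmb_bar, toEmb_ofEmb, toEmb_ofEmb]

theorem isSign_iff (τ : RingAut K) : IsSign F τ ↔ SS.IsSign F (toAut e τ) := by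
  constructor
  · intro h φ
    rcases h (ofEmb e φ) with h1 | h1
    · left
      have h2 := congrArg (toEmb e) h1
      rwa [toEmb_act, toEmb_ofEmb] at h2
    · right
      have h2 := congrArg (toEmb e) h1
      rwa [toEmb_act, toEmb_bar, toEmb_ofEmb] at h2
  · intro h σ
    rcases h (toEmb e σ) with h1 | h1
    · left
      apply (embEquiv e).injective
      change toEmb e _ = toEmb e _
      rw [toEmb_act, h1]
    · right
      apply (embEquiv e).injective
      change toEmb e _ = toEmb e _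
      rw [toEmb_act, h1, toEmb_bar]

omit [NumberField F] [IsCMField F] in
theorem fixes_iff (τ : RingAut K) :
    Fixes F τ ↔ ∀ φ : F →+* ℂ, (toAut e τ : ℂ →+* ℂ).comp φ = φ := by
  constructor
  · intro h φ
    have h2 := congrArg (toEmb e) (h (ofEmb e φ))
    change toEmb e (act τ (ofEmb e φ)) = _ at h2
    rwa [toEmb_act, toEmb_ofEmb] at h2
  · intro h σ
    apply (embEquiv e).injective
    change toEmb e (act τ σ) = toEmb e _
    rw [toEmb_act, h]

include e in
theorem separated_iff : SeparatedSigns F K ↔ SS.SeparatedSigns F := by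
  constructor
  · intro h φ ψ h1 h2
    obtain ⟨τ, h3, h4, h5⟩ := h (ofEmb e φ) (ofEmb e ψ)
      (fun h => h1 (by have := congrArg (toEmb e) h; rwa [toEmb_ofEmb, toEmb_ofEmb] at this))
      (fun h => h2 (by
        have := congrArg (toEmb e) h
        rwa [toEmb_bar, toEmb_ofEmb, toEmb_ofEmb] at this))
    refine ⟨toAut e τ, (isSign_iff e τ).1 h3, ?_, ?_⟩
    · have := congrArg (toEmb e) h4
      rwa [toEmb_act, toEmb_ofEmb] at this
    · have := congrArg (toEmb e) h5
      rwa [toEmb_act, toEmb_bar, toEmb_ofEmb] at this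
  · intro h σ σ' h1 h2
    obtain ⟨τ, h3, h4, h5⟩ := h (toEmb e σ) (toEmb e σ')
      (fun h => h1 ((embEquiv e).injective h))
      (fun h => h2 ((embEquiv e).injective (by
        change toEmb e _ = toEmb e _
        rw [toEmb_bar, h])))
    refine ⟨ofAut e τ, (isSign_iff e _).2 (by rw [toAut_ofAut]; exact h3), ?_, ?_⟩
    · apply (embEquiv e).injective
      change toEmb e _ = toEmb e _
      rw [toEmb_act, toAut_ofAut, h4]
    · apply (embEquiv e).injective
      change toEmb e _ = toEmb e _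
      rw [toEmb_act, toAut_ofAut, h5, toEmb_bar]

variable {F' : Type} [Field F'] [NumberField F'] [IsCMField F']

include e in
theorem compatible_iff : Compatible F F' K ↔ SS.Compatible F F' := by
  have h1 : (∀ τ : RingAut K, Fixes F τ ↔ Fixes F' τ) ↔ SS.SameClosure F F' := by
    constructor
    · intro h τ
      have h2 := h (ofAut e τ)
      rwa [fixes_iff e, fixes_iff e, toAut_ofAut] at h2
    · intro h τ
      rw [fixes_iff e, fixes_iff e]
      exact h (toAut e τ)
  have h2 : (∀ τ : RingAut K, IsSign F τ ↔ IsSign F' τ) ↔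
      ∀ τ : ℂ ≃+* ℂ, SS.IsSign F τ ↔ SS.IsSign F' τ := by
    constructor
    · intro h τ
      have h2 := h (ofAut e τ)
      rwa [isSign_iff e, isSign_iff e, toAut_ofAut] at h2
    · intro h τ
      rw [isSign_iff e, isSign_iff e]
      exact h (toAut e τ)
  rw [Compatible, SS.Compatible, h1, h2]

/-- Criteria for CM fields. -/
theorem criteria (e : K ≃+* ℂ) :
    (∀ q : ℕ, q.Prime → finrank ℚ F = 2 * q →
      (∃ τ : RingAut K, IsSign F τ ∧ ∃ σ σ' : F →+* K, act τ σ = σ ∧ act τ σ' ≠ σ') →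
        SeparatedSigns F K) ∧
    (finrank ℚ F = 2 → SeparatedSigns F K) ∧
    (∀ g g' : ℕ, Odd g → Odd g' → finrank ℚ F = 2 * g → finrank ℚ F' = 2 * g' →
      Compatible F F' K) := by
  refine ⟨fun q hq hF hex => ?_, fun hF => ?_, fun g g' hg hg' h h' => ?_⟩
  · rw [separated_iff e]
    obtain ⟨τ, h1, σ, σ', h2, h3⟩ := hex
    refine SS.separated_of_prime F hq hF ⟨toAut e τ, (isSign_iff e τ).1 h1, toEmb e σ, toEmb e σ',
      ?_, fun h => h3 ?_⟩
    · rw [← toEmb_act, h2]
    · rw [← toEmb_act] at h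
      exact (embEquiv e).injective h
  · rw [separated_iff e]
    exact SS.separated_of_quadratic F hF
  · rw [compatible_iff e]
    exact SS.compatible_of_odd hg hg' h h'

end transport

section rel

variable {k : Type u} [Field k] {𝒱 : VarClass k} {ops : CycleOps 𝒱}
  {W : WeilCohomology.{u, 0} ops} {Ψ : HodgeData W} {ι : Type} {F : ι → Type}
  [∀ i, Field (F i)] [∀ i, NumberField (F i)] [∀ i, IsCMField (F i)] {P : CMPieces Ψ F}

open Classical in
/-- Sums over lists. -/
theorem sum_list {G : ι → Type} [∀ i, Fintype (G i)] (L : List (Σ i, G i)) (f : (Σ i, G i) → ℝ)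
    (S : Finset ι) (hS : ∀ a ∈ L, a.1 ∈ S) :
    (L.map f).sum = ∑ i : S, ∑ x : G i, (L.count ⟨i, x⟩ : ℝ) * f ⟨i, x⟩ := by
  rw [Finset.sum_list_map_count]
  have h1 : ∑ m ∈ L.toFinset, L.count m • f m =
      ∑ m ∈ S.sigma fun i => (Finset.univ : Finset (G i)), L.count m • f m := by
    refine Finset.sum_subset (fun a ha => ?_) fun a _ ha => ?_
    · rw [Finset.mem_sigma]
      exact ⟨hS a (List.mem_toFinset.1 ha), Finset.mem_univ _⟩
    · rw [List.count_eq_zero_of_not_mem (fun h => ha (List.mem_toFinset.2 h)), zero_smul]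
  rw [h1, Finset.sum_sigma, ← Finset.sum_coe_sort]
  refine Finset.sum_congr rfl fun i _ => Finset.sum_congr rfl fun x _ => ?_
  rw [nsmul_eq_mul]

/-- **Fields with separated signs are nondegenerate.** -/
theorem nondegenerate_of_separated (e : W.K ≃+* ℂ) (hsep : ∀ i, SeparatedSigns (F i) W.K)
    (hcomp : ∀ i j, Compatible (F i) (F j) W.K) (hind : P.IndependentTypes) :
    P.Nondegenerate := by
  classical
  intro L hL i σ
  let S : Finset ι := insert i (L.map Sigma.fst).toFinset
  have hS : ∀ a ∈ L, a.1 ∈ S := fun a ha =>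
    Finset.mem_insert_of_mem (List.mem_toFinset.2 (List.mem_map.2 ⟨a, ha, rfl⟩))
  let u : ∀ i : S, (F i →+* ℂ) → ℝ := fun i φ => (P.level i (ofEmb e φ) : ℝ)
  let c : ∀ i : S, (F i →+* ℂ) → ℝ := fun i φ =>
    (L.count ⟨i, ofEmb e φ⟩ : ℝ) - (L.count ⟨i, bar (ofEmb e φ)⟩ : ℝ)
  have hodd : ∀ (i : S) φ, u i (ComplexEmbedding.conjugate φ) = - u i φ := by
    intro i φ
    change (P.level i (ofEmb e _) : ℝ) = - (P.level i (ofEmb e φ) : ℝ)
    rw [ofEmb_conj, level_bar]
    push_cast
    rfl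
  have hc : ∀ (i : S) φ, c i (ComplexEmbedding.conjugate φ) = - c i φ := by
    intro i φ
    change (L.count ⟨i, ofEmb e _⟩ : ℝ) - (L.count ⟨i, bar (ofEmb e _)⟩ : ℝ) =
      - ((L.count ⟨i, ofEmb e φ⟩ : ℝ) - (L.count ⟨i, bar (ofEmb e φ)⟩ : ℝ))
    rw [ofEmb_conj, bar_bar]
    ring
  have key := SS.trivial_rel (K := fun i : S => F i) (Set.univ : Set S)
    (fun i _ => (separated_iff e).1 (hsep i)) (fun i _ j _ => (compatible_iff e).1 (hcomp i j))
    (fun _ _ j hj => absurd (Set.mem_univ j) hj) (u := u) hodd ?_ c hc ?_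
    ⟨i, Finset.mem_insert_self _ _⟩ (Set.mem_univ _) (toEmb e σ)
  · change (L.count ⟨i, ofEmb e (toEmb e σ)⟩ : ℝ) -
      (L.count ⟨i, bar (ofEmb e (toEmb e σ))⟩ : ℝ) = 0 at key
    rw [ofEmb_toEmb, sub_eq_zero] at key
    exact_mod_cast key
  · -- independence
    intro T _ ψ hT
    let T' : Set ι := {i | ∃ hi : i ∈ S, (⟨i, hi⟩ : S) ∈ T}
    let ψ' : ∀ i, F i →+* W.K := fun i =>
      if hi : i ∈ S then ofEmb e (ψ ⟨i, hi⟩) else
        (embEquiv e).symm (Classical.arbitrary (F i →+* ℂ))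
    have hψ' : ∀ i (hi : i ∈ S), ψ' i = ofEmb e (ψ ⟨i, hi⟩) := fun i hi => dif_pos hi
    have h1 := hind T' ψ' ?_
    · -- transport
      have h2 : LinearIndepOn ℝ (fun i : S => fun τ : RingAut W.K =>
          (P.level i (act τ (ψ' i)) : ℝ)) T := by
        rw [LinearIndepOn] at h1 ⊢
        exact h1.comp (fun i : T => (⟨i.1.1, i.1.2, i.2⟩ : T')) fun a b hab => by
          have := congrArg Subtype.val hab
          exact Subtype.ext (Subtype.ext this)
      rw [LinearIndepOn] at h2 ⊢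
      rw [linearIndependent_iff'] at h2 ⊢
      intro s g hg
      refine h2 s g ?_
      funext τ
      have h3 := congrFun hg (toAut e τ)
      rw [Finset.sum_apply] at h3 ⊢
      rw [Pi.zero_apply] at h3 ⊢
      rw [← h3]
      refine Finset.sum_congr rfl fun a _ => ?_
      rw [Pi.smul_apply, Pi.smul_apply]
      congr 1
      change (P.level _ (act τ (ψ' _)) : ℝ) =
        (P.level _ (ofEmb e ((toAut e τ : ℂ →+* ℂ).comp (ψ _))) : ℝ)
      rw [ofEmb_comp, ofAut_toAut, hψ' _ a.1.2]
    · rintro i ⟨hi, hiT⟩ j ⟨hj, hjT⟩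
      rw [hψ' i hi, hψ' j hj]
      have h2 := hT _ hiT _ hjT
      have h3 : ∀ {G : Type} [Field G] (φ : G →+* ℂ), (ofEmb e φ).fieldRange =
          φ.fieldRange.map (e.symm : ℂ →+* W.K) := by
        intro G _ φ
        exact (RingHom.map_fieldRange (e.symm : ℂ →+* W.K) φ).symm
      rw [h3, h3, h2]
  · -- the relation
    intro τ
    have h1 := hL (ofAut e τ)
    have h2 : (L.map fun a => (P.level a.1 (act (ofAut e τ) a.2) : ℝ)).sum = 0 := by
      have h3 := congrArg (fun x : ℤ => (x : ℝ)) h1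
      simp only [Int.cast_zero] at h3
      rw [← h3, Int.cast_list_sum, List.map_map]
      rfl
    rw [sum_list L (fun a => (P.level a.1 (act (ofAut e τ) a.2) : ℝ)) S hS] at h2
    have h3 : ∀ i : S, ∑ φ : F i →+* ℂ, c i φ * u i ((τ : ℂ →+* ℂ).comp φ) =
        2 * ∑ x : F i →+* W.K, (L.count ⟨i, x⟩ : ℝ) *
          (P.level i (act (ofAut e τ) x) : ℝ) := by
      intro i
      have h4 : ∀ φ, c i φ * u i ((τ : ℂ →+* ℂ).comp φ) =
          (L.count ⟨i, ofEmb e φ⟩ : ℝ) * (P.level i (act (ofAut e τ) (ofEmb e φ)) : ℝ) +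
          (L.count ⟨i, bar (ofEmb e φ)⟩ : ℝ) *
            (P.level i (act (ofAut e τ) (bar (ofEmb e φ))) : ℝ) := by
        intro φ
        change ((L.count ⟨i, ofEmb e φ⟩ : ℝ) - (L.count ⟨i, bar (ofEmb e φ)⟩ : ℝ)) *
          (P.level i (ofEmb e _) : ℝ) = _
        rw [ofEmb_comp, act_bar, level_bar]
        push_cast
        ring
      rw [Finset.sum_congr rfl fun φ _ => h4 φ, Finset.sum_add_distrib, two_mul]
      congr 1
      · exact Fintype.sum_equiv (embEquiv e).symm _ _ fun φ => rfl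
      · refine Fintype.sum_equiv ((embEquiv e).symm.trans
          (Function.Involutive.toPerm (bar : (F i →+* W.K) → _) bar_bar)) _ _ fun φ => rfl
    rw [Finset.sum_congr rfl fun i _ => h3 i, ← Finset.mul_sum, h2, mul_zero]

end rel

end Pool.Agent.T2H38.CP
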