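import Pool.Agent.Y132.AH.FDefs
import Mathlib.NumberTheory.NumberField.CMField

/-!
# Varieties built from pieces with complex multiplication: definitions
-/

set_option autoImplicit false

open CategoryTheory AlgebraicGeometry NumberField

universe u v

namespace Pool.Agent.T2H38.CP

open Pool.Agent.H914 Pool.Agent.Y132.AH

section fields

variable {F : Type} [Field F] [NumberField F] [IsCMField F] {K : Type} [Field K]

/-- The embedding `τ ∘ σ`. -/
def act (τ : RingAut K) (σ : F →+* K) : F →+* K := (τ : K →+* K).comp σ

/-- The complex conjugate of the embedding `σ` of the CM field `F`. -/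
noncomputable def bar (σ : F →+* K) : F →+* K := σ.comp (IsCMField.complexConj F : F →+* F)

/-- The automorphism `τ` of `K` maps each embedding of `F` to itself or to its complex conjugate. -/
def IsSign (F : Type) [Field F] [NumberField F] [IsCMField F] (τ : RingAut K) : Prop :=
  ∀ σ : F →+* K, act τ σ = σ ∨ act τ σ = bar σ

/-- The automorphism `τ` of `K` is the identity on the images of `F`. -/
def Fixes (F : Type) [Field F] (τ : RingAut K) : Prop := ∀ σ : F →+* K, (τ : K →+* K).comp σ = σ

/-- The automorphism `τ` of `K` is the complex conjugation on the images of `F`. -/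
def Conjugates (F : Type) [Field F] [NumberField F] [IsCMField F] (τ : RingAut K) : Prop :=
  ∀ σ : F →+* K, act τ σ = bar σ

/-- The *signs of `F` are separated*: for all embeddings `σ`, `σ'` of `F` with `σ'` different from `σ`
and from its complex conjugate there is an automorphism that maps each embedding to itself or to its
complex conjugate, that fixes `σ` and that maps `σ'` to its complex conjugate. -/
def SeparatedSigns (F : Type) [Field F] [NumberField F] [IsCMField F] (K : Type) [Field K] : Prop :=
  ∀ σ σ' : F →+* K, σ' ≠ σ → σ' ≠ bar σ →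
    ∃ τ : RingAut K, IsSign F τ ∧ act τ σ = σ ∧ act τ σ' = bar σ'

/-- Some automorphism maps each embedding of `F` to itself or to its complex conjugate, fixes one
embedding and does not fix another one. -/
def HasSign (F : Type) [Field F] [NumberField F] [IsCMField F] (K : Type) [Field K] : Prop :=
  ∃ τ : RingAut K, IsSign F τ ∧ ∃ σ σ' : F →+* K, act τ σ = σ ∧ act τ σ' ≠ σ'

/-- If the Galois closures of `F` and `F'` are the same then the Galois closures of their maximal
totally real subfields are the same. -/
def Compatible (F F' : Type) [Field F] [NumberField F] [IsCMField F] [Field F'] [NumberField F']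
    [IsCMField F'] (K : Type) [Field K] : Prop :=
  (∀ τ : RingAut K, Fixes F τ ↔ Fixes F' τ) → ∀ τ : RingAut K, IsSign F τ ↔ IsSign F' τ

/-- Some automorphism of `K` is the complex conjugation on the images of the fields `F i` and the
identity on the images of the fields `F' j`. -/
def IsDisjoint {ι κ : Type} (F : ι → Type) [∀ i, Field (F i)] [∀ i, NumberField (F i)]
    [∀ i, IsCMField (F i)] (F' : κ → Type) [∀ j, Field (F' j)] (K : Type) [Field K] : Prop :=
  ∃ h : RingAut K, (∀ i, Conjugates (F i) h) ∧ ∀ j, Fixes (F' j) h

end fields

section levels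

variable {ι : Type} {F : ι → Type} [∀ i, Field (F i)] [∀ i, NumberField (F i)]
  [∀ i, IsCMField (F i)] {K : Type} [Field K]

open Classical in
/-- The functions `level i` on the embeddings of the fields `F i` are *nondegenerate*: if the values at
all conjugates of a list of embeddings add up to zero then each embedding occurs as often as its
complex conjugate. -/
def NondegenerateLevels (level : ∀ i, (F i →+* K) → ℤ) : Prop :=
  ∀ L : List (Σ i, F i →+* K),
    (∀ τ : RingAut K, (L.map fun a => level a.1 (act τ a.2)).sum = 0) →
      ∀ (i : ι) (σ : F i →+* K), L.count ⟨i, σ⟩ = L.count ⟨i, bar σ⟩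

/-- If embeddings `σ i` of some of the fields `F i` (those with `i ∈ S`) into `K` have the same image
then the functions `τ ↦ level i (τ ∘ σ i)` (`i ∈ S`) of the automorphisms `τ` of `K` are linearly
independent. (If the fields are pairwise not isomorphic this means that no function `level i` is
zero.) -/
def IndependentLevels (level : ∀ i, (F i →+* K) → ℤ) : Prop :=
  ∀ (S : Set ι) (σ : ∀ i, F i →+* K),
    (∀ i ∈ S, ∀ j ∈ S, (σ i).fieldRange = (σ j).fieldRange) →
      LinearIndepOn ℝ (fun i => fun τ : RingAut K => (level i (act τ (σ i)) : ℝ)) S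

/-- Each function `s` with the property `S` is zero, or there is an automorphism `h` of `K` which is the
complex conjugation on the images of the fields `F i` and does not change `s`. -/
def IndependentOf (F : ι → Type) [∀ i, Field (F i)] [∀ i, NumberField (F i)]
    [∀ i, IsCMField (F i)] (S : (RingAut K → ℤ) → Prop) : Prop :=
  ∀ s, S s → s = 0 ∨ ∃ h : RingAut K, (∀ i, Conjugates (F i) h) ∧ ∀ τ, s (τ * h) = s τ

/-- Only the zero function can have the property `S`. -/
def OnlyZero {K : Type} [Field K] (S : (RingAut K → ℤ) → Prop) : Prop := ∀ s, S s → s = 0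

end levels

section alg

variable {K : Type} [Field K] {A : Type} [Ring A] [Algebra K A] {B : Type} [Ring B] [Algebra K B]
  {C : Type} [Ring C] [Algebra K C]

/-- The set generates the algebra. -/
def Generates (K : Type) {A : Type} [Field K] [Ring A] [Algebra K A] (S : Set A) : Prop :=
  Algebra.adjoin K S = ⊤

/-- The subspace spanned by the external products `p (x σ) q (x σ')`. -/
def extSpan (p q : A →ₐ[K] C) {I : Type} (x : I → A) : Submodule K C :=
  Submodule.span K {y | ∃ σ σ', y = p (x σ) * q (x σ')}

/-- The elements `s (z · r x)` for elements `z` with a property `P j`. -/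
def imagesOf (r : A →ₐ[K] C) (s : C →ₗ[K] B) (P : ℕ → C → Prop) (x : A) : Set B :=
  {y | ∃ j z, P j z ∧ y = corrOp r s z x}

variable {gr : ℕ → Submodule K A} {n : ℕ} {tr : A →ₗ[K] K} {Cl : ℕ → Set A}

/-- For each automorphism `τ` of the coefficients the conjugate of `x` is of a pure type `(p, q)` with
`p - q = s τ`. -/
def HasLevel (Ψ : HodgeAlg gr n tr Cl) (s : RingAut K → ℤ) (x : A) : Prop :=
  ∀ τ : RingAut K, ∃ p q : ℕ, Ψ.coeff τ x ∈ Ψ.hodge (p, q) ∧ (p : ℤ) - q = s τ

/-- The function `s` is the level of a one-dimensional subspace which is stable under the Mumford-Tate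
group. -/
def IsLevel (Ψ : HodgeAlg gr n tr Cl) (s : RingAut K → ℤ) : Prop := ∃ x : A, x ≠ 0 ∧ HasLevel Ψ s x

/-- The classes `x σ`, `σ` an embedding of the CM field `F` into the field of coefficients, are of the
types `type σ`, and an automorphism `τ` of the coefficients maps `x σ` to `x (τ ∘ σ)`: they are (if
they are not zero) the eigenvectors for the operation of `F` on the complexification of a rational
sub-Hodge-structure of degree `deg` and of dimension `[F : ℚ]`. -/
structure IsPiece (Ψ : HodgeAlg gr n tr Cl) {F : Type} [Field F] [NumberField F] [IsCMField F]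
    (x : (F →+* K) → A) (type : (F →+* K) → ℕ × ℕ) (deg : ℕ) : Prop where
  coeff : ∀ (τ : RingAut K) σ, Ψ.coeff τ (x σ) = x (act τ σ)
  hodge : ∀ σ, x σ ∈ Ψ.hodge (type σ)
  conj : ∀ σ, type (bar σ) = (type σ).swap
  sum : ∀ σ, (type σ).1 + (type σ).2 = deg

end alg

section pieces

open Pool.Agent.H914.VarClass Pool.Agent.H914.VarClass.Obj Pool.Agent.H914.WeilCohomology

variable {k : Type u} [Field k] {𝒱 : VarClass k} {ops : CycleOps 𝒱}
  {W : WeilCohomology.{u, 0} ops}

/-- The subspace of the cohomology of `X × X` spanned by the external products of the `x σ`. -/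
noncomputable def square (W : WeilCohomology.{u, 0} ops) (X : 𝒱.Obj) {I : Type} (x : I → W.H X) :
    Submodule W.K (W.H (X.prod X)) :=
  extSpan (W.map (fst X X)) (W.map (snd X X)) x

/-- The images of `x` under absolute Hodge correspondences from `X` to `Z`. -/
def absImages (Ψ : HodgeData W) (E : Embeddings W) (X Z : 𝒱.Obj) (x : W.H X) : Set (W.H Z) :=
  imagesOf (W.map (fst X Z)) (W.push (snd X Z)) (IsAbsHodge Ψ E (X.prod Z)) x

/-- A family of pieces with complex multiplication by CM fields `F i` of the cohomology of varieties
`X i`. -/
structure CMPieces (Ψ : HodgeData W) {ι : Type} (F : ι → Type) [∀ i, Field (F i)]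
    [∀ i, NumberField (F i)] [∀ i, IsCMField (F i)] where
  /-- the variety -/
  X : ι → 𝒱.Obj
  /-- the eigenvectors -/
  x : ∀ i, (F i →+* W.K) → W.H (X i)
  /-- the Hodge types -/
  type : ∀ i, (F i →+* W.K) → ℕ × ℕ
  /-- the degree -/
  deg : ι → ℕ
  isPiece : ∀ i, IsPiece (Ψ.on (X i)) (x i) (type i) (deg i)

variable {Ψ : HodgeData W} {ι : Type} {F : ι → Type} [∀ i, Field (F i)] [∀ i, NumberField (F i)]
  [∀ i, IsCMField (F i)]

namespace CMPieces

/-- The number `p - q` for the type `(p, q)` of the eigenvector `x i σ`. -/
def level (P : CMPieces Ψ F) (i : ι) (σ : F i →+* W.K) : ℤ :=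
  ((P.type i σ).1 : ℤ) - (P.type i σ).2

/-- The family is *nondegenerate*: the levels satisfy no other relations than those between an
embedding and its complex conjugate. -/
def Nondegenerate (P : CMPieces Ψ F) : Prop := NondegenerateLevels P.level

/-- The types of the pieces with conjugate fields are linearly independent. -/
def IndependentTypes (P : CMPieces Ψ F) : Prop := IndependentLevels P.level

/-- The Hodge classes in `V i ⊗ V i` (in the cohomology of `X i × X i`; the piece `V i` is spanned by
the eigenvectors) are absolute Hodge classes, for all `i`. (This is a condition on the endomorphisms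
in `F i` of the pieces.) -/
def SquaresAbsolute (P : CMPieces Ψ F) (E : Embeddings W) : Prop :=
  ∀ i, ∀ c ∈ square W (P.X i) (P.x i), IsHodge Ψ _ (P.deg i) c → IsAbsHodge Ψ E _ (P.deg i) c

/-- The images of the eigenvectors under absolute Hodge correspondences from `X i` to `Z`. -/
def images (P : CMPieces Ψ F) (E : Embeddings W) (Z : 𝒱.Obj) : Set (W.H Z) :=
  {y | ∃ i σ, y ∈ absImages Ψ E (P.X i) Z (P.x i σ)}

/-- The variety `Z` is *built from the pieces*: its cohomology is generated as an algebra by absolute
Hodge classes and by the images of the eigenvectors `x i σ` under absolute Hodge correspondences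
from `X i` to `Z`. -/
def IsBuilt (P : CMPieces Ψ F) (E : Embeddings W) (Z : 𝒱.Obj) : Prop :=
  Generates W.K (P.images E Z ∪ {c | ∃ j, IsAbsHodge Ψ E Z j c})

end CMPieces

/-- The function `s` is the level of a one-dimensional subspace of the cohomology of `U` which is
stable under the Mumford-Tate group. -/
def IsCharacter (Ψ : HodgeData W) (U : 𝒱.Obj) (s : RingAut W.K → ℤ) : Prop := IsLevel (Ψ.on U) s

/-- The Hodge group of `U` has no characters: the one-dimensional subspaces of the cohomology of `U`
which are stable under the Mumford-Tate group are of the types `(p, p)` (for example, `U` is an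
abelian variety without simple factors of type IV in the sense of Albert). -/
def NoCharacters (Ψ : HodgeData W) (U : 𝒱.Obj) : Prop := OnlyZero (IsCharacter Ψ U)

/-- The variety `U` is *independent of the fields `F i`*: each character `s` of its Hodge group is
trivial, or there is an automorphism `h` of the coefficients which is the complex conjugation on the
images of the fields `F i` and does not change `s`. -/
def IsIndependent (Ψ : HodgeData W) {ι : Type} (F : ι → Type) [∀ i, Field (F i)]
    [∀ i, NumberField (F i)] [∀ i, IsCMField (F i)] (U : 𝒱.Obj) : Prop :=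
  IndependentOf F (IsCharacter Ψ U)

/-- Some variety in the class has a zero-cycle of nonzero degree. -/
def HasZeroCycle (𝒰 : Set 𝒱.Obj) : Prop :=
  ∃ U ∈ 𝒰, ∃ η, U.IsCyc U.dim η ∧ U.V.degCycle η ≠ 0

end pieces

end Pool.Agent.T2H38.CP
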