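import Pool.Agent.T2H38.CP.Words

/-!
# Absolute Hodge classes on varieties built from nondegenerate pieces with complex multiplication
-/

set_option autoImplicit false
set_option linter.unusedSectionVars false

open CategoryTheory AlgebraicGeometry NumberField
open scoped TensorProduct

universe u v

namespace Pool.Agent.T2H38.CP

open Pool.Agent.H914 Pool.Agent.H914.VarClass Pool.Agent.H914.VarClass.Obj
  Pool.Agent.H914.WeilCohomology Pool.Agent.H281R3.HT Pool.Agent.W552 Pool.Agent.TH125.Gal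
  Pool.Agent.Y132.AF Pool.Agent.Y132.AH

variable {k : Type u} [Field k] {𝒱 : VarClass k} {ops : CycleOps 𝒱}
  {W : WeilCohomology.{u, 0} ops} {Ψ : HodgeData W} {ι : Type} {F : ι → Type}
  [∀ i, Field (F i)] [∀ i, NumberField (F i)] [∀ i, IsCMField (F i)] {P : CMPieces Ψ F}
  {E : Embeddings W}

/-- the level of a list -/
def lv (P : CMPieces Ψ F) (L : List (Σ i, F i →+* W.K)) (τ : RingAut W.K) : ℤ :=
  (L.map fun a => P.level a.1 (act τ a.2)).sum

theorem lv_conj {h : RingAut W.K} (hh : ∀ i, Conjugates (F i) h) (L : List (Σ i, F i →+* W.K))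
    (τ : RingAut W.K) : lv P L (τ * h) = - lv P L τ := by
  induction L with
  | nil => simp [lv]
  | cons a L ih =>
    have e1 : ∀ τ, lv P (a :: L) τ = P.level a.1 (act τ a.2) + lv P L τ := fun τ => by
      simp [lv]
    rw [e1, e1, ih, act_mul, hh a.1 a.2, act_bar, level_bar]
    ring

theorem lv_fix {h : RingAut W.K} (hh : ∀ i, Fixes (F i) h) (L : List (Σ i, F i →+* W.K))
    (τ : RingAut W.K) : lv P L (τ * h) = lv P L τ := by
  induction L with
  | nil => simp [lv]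
  | cons a L ih =>
    have e1 : ∀ τ, lv P (a :: L) τ = P.level a.1 (act τ a.2) + lv P L τ := fun τ => by
      simp [lv]
    have e2 : act h a.2 = a.2 := hh a.1 a.2
    rw [e1, e1, ih, act_mul, e2]

/-- Classes of level zero are combinations of absolute Hodge classes if all Hodge classes are
absolute. -/
theorem mem_abs {U : 𝒱.Obj} (hU : AllAbsolute Ψ E U) {y : W.H U} (hy : IsWt Ψ U 0 y) :
    y ∈ (absSystem Ψ E).C U := by
  obtain ⟨j, hj⟩ := hy.mem_span
  refine (Submodule.span_le.2 ?_ : _ ≤ (absSystem Ψ E).C _) hj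
  intro c hc
  exact Submodule.subset_span ⟨j, hU j c hc⟩

/-- **Main theorem**: products. -/
theorem abs_prod [IsAlgClosed W.K] (hP : P.SquaresAbsolute E) (hN : P.Nondegenerate)
    {Z U : 𝒱.Obj} (hZ : P.IsBuilt E Z) (hU : IsIndependent Ψ F U)
    (habs : AllAbsolute Ψ E U) : AllAbsolute Ψ E (Z.prod U) := by
  rw [← hodgeIn_abs]
  intro j c hc
  obtain ⟨β, _, B, hB⟩ := exists_basis hZ
  choose L hL hL' using fun b => word_spec (hB b)
  rw [expand B c]
  refine Submodule.sum_mem _ fun b _ => ?_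
  by_cases hu : ctr (B.coord b) c = 0
  · rw [hu, map_zero, mul_zero]
    exact Submodule.zero_mem _
  · have h1 : IsWt Ψ U (0 - lv P (L b)) (ctr (B.coord b) c) :=
      IsWt.coord B (m := fun b => lv P (L b)) hL (IsWt.hodge hc) b
    have h0 : ∀ τ, lv P (L b) τ = 0 := by
      rcases hU _ ⟨_, hu, h1⟩ with h2 | ⟨h, hh, hinv⟩
      · intro τ
        have h3 := congrFun h2 τ
        simpa using h3
      · intro τ
        have h3 := hinv τ
        rw [Pi.sub_apply, Pi.sub_apply, lv_conj hh] at h3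
        simp only [Pi.zero_apply] at h3
        omega
    have h2 : (0 : RingAut W.K → ℤ) - lv P (L b) = 0 := by
      funext τ
      simp [h0 τ]
    rw [h2] at h1
    exact (absSystem Ψ E).mul_mem ((absSystem Ψ E).map_mem _ (hL' b hP hN h0))
      ((absSystem Ψ E).map_mem _ (mem_abs habs h1))

/-- **Main theorem**: the varieties themselves. -/
theorem abs_built [IsAlgClosed W.K] (hP : P.SquaresAbsolute E) (hN : P.Nondegenerate)
    {Z : 𝒱.Obj} (hZ : P.IsBuilt E Z) : AllAbsolute Ψ E Z := by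
  rw [← hodgeIn_abs]
  intro j c hc
  obtain ⟨β, _, B, hB⟩ := exists_basis hZ
  choose L hL hL' using fun b => word_spec (hB b)
  rw [← B.sum_repr c]
  refine Submodule.sum_mem _ fun b _ => ?_
  by_cases hb : B.repr c b = 0
  · rw [hb, zero_smul]
    exact Submodule.zero_mem _
  · have h1 : lv P (L b) = 0 := IsWt.repr B (m := fun b => lv P (L b)) hL (IsWt.hodge hc) b hb
    exact Submodule.smul_mem _ _ (hL' b hP hN fun τ => congrFun h1 τ)

/-- The products of built varieties and a variety `U`. -/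
theorem prodList_cases {κ : Type} {Z : κ → 𝒱.Obj} (hZ : ∀ j, P.IsBuilt E (Z j)) (U : 𝒱.Obj)
    (L : List κ) : prodList Z U L = U ∨
      ∃ Z', P.IsBuilt E Z' ∧ Nonempty (prodList Z U L ≅ Z'.prod U) := by
  induction L with
  | nil => exact Or.inl rfl
  | cons j L ih =>
    right
    rcases ih with h | ⟨Z', hZ', ⟨e⟩⟩
    · refine ⟨Z j, hZ j, ⟨eqToIso ?_⟩⟩
      change (Z j).prod (prodList Z U L) = _
      rw [h]
    · exact ⟨(Z j).prod Z', IsBuilt.prod (hZ j) hZ',
        ⟨prodIso (Iso.refl _) e ≪≫ (assocIso (Z j) Z' U).symm⟩⟩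

theorem abs_prodList [IsAlgClosed W.K] (hP : P.SquaresAbsolute E) (hN : P.Nondegenerate)
    {κ : Type} {Z : κ → 𝒱.Obj} (hZ : ∀ j, P.IsBuilt E (Z j)) {U : 𝒱.Obj}
    (hU : IsIndependent Ψ F U) (habs : AllAbsolute Ψ E U) (L : List κ) :
    AllAbsolute Ψ E (prodList Z U L) := by
  rcases prodList_cases hZ U L with h | ⟨Z', hZ', ⟨e⟩⟩
  · rw [h]
    exact habs
  · exact abs_iso Ψ E e.symm (abs_prod hP hN hZ' hU habs)

/-- **Full faithfulness.** -/
theorem full_iff [IsAlgClosed W.K] (hP : P.SquaresAbsolute E) (hN : P.Nondegenerate)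
    {𝒰 : Set 𝒱.Obj} (h𝒰 : ∀ U ∈ 𝒰, ∀ U' ∈ 𝒰, U.prod U' ∈ 𝒰) (hU : ∀ U ∈ 𝒰, IsIndependent Ψ F U)
    {κ : Type} {Z : κ → 𝒱.Obj} (hZ : ∀ j, P.IsBuilt E (Z j)) :
    FullyFaithfulOn Ψ E (productsWith 𝒰 Z) ↔ FullyFaithfulOn Ψ E 𝒰 := by
  constructor
  · intro h A hA B hB
    exact h A ⟨_, hA, [], ⟨Iso.refl _⟩⟩ B ⟨_, hB, [], ⟨Iso.refl _⟩⟩
  · intro h
    exact full_of_abs Ψ E h𝒰 fun U hU' L =>
      abs_prodList hP hN hZ (hU U hU') (abs_of_full Ψ E h hU') L

/-- **Full faithfulness** on the built varieties. -/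
theorem full_built [IsAlgClosed W.K] (hP : P.SquaresAbsolute E) (hN : P.Nondegenerate) :
    FullyFaithfulOn Ψ E {Z | P.IsBuilt E Z} := by
  intro A hA B hB m n p q hp hq f
  exact ⟨fun hf => motivic_of_hodge (abs_built hP hN (IsBuilt.prod hA hB)) hf,
    hodge_of_motivic hp hq⟩

/-- If the realization is full then the Hodge classes on products are absolute. -/
theorem abs_of_full_prod {𝒲 : Set 𝒱.Obj} (h : FullyFaithfulOn Ψ E 𝒲) {A B : 𝒱.Obj} (hA : A ∈ 𝒲)
    (hB : B ∈ 𝒲) : AllAbsolute Ψ E (A.prod B) := by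
  intro j c hc
  have h1 : IsCutHodge (Ψ.on A) (Ψ.on B) (((j : ℤ) - A.dim) - 0) LinearMap.id LinearMap.id
      (Y132.AH.corr W A B c) := ⟨rfl, isHodgeLin_corr Ψ hc (by ring)⟩
  rcases (h A hA B hB 0 ((j : ℤ) - A.dim) _ _ (isProjector_id Ψ E A) (isProjector_id Ψ E B) _).1 h1
    with h2 | ⟨_, ⟨l, c', hl, hc', rfl⟩, h2⟩
  · have h3 : c = 0 := corrL_injective (W := W) A B (by rw [map_zero]; exact h2)
    rw [h3]
    exact isAbs_zero Ψ E _ j
  · have h3 : c = c' := corrL_injective (W := W) A B h2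
    rw [h3]
    have h4 : l = j := by omega
    rw [← h4]
    exact hc'

/-- The projection `(A × U) × (B × U) → A × B`. -/
noncomputable def prA (A B U : 𝒱.Obj) : (A.prod U).prod (B.prod U) ⟶ A.prod B :=
  lift (fst (A.prod U) (B.prod U) ≫ fst A U) (snd (A.prod U) (B.prod U) ≫ fst B U)

/-- The projection `(A × U) × (B × U) → U × U`. -/
noncomputable def prU (A B U : 𝒱.Obj) : (A.prod U).prod (B.prod U) ⟶ U.prod U :=
  lift (fst (A.prod U) (B.prod U) ≫ snd A U) (snd (A.prod U) (B.prod U) ≫ snd B U)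

/-- The trace of a product with a zero-cycle on `U × U`. -/
theorem push_prA (A B U : 𝒱.Obj) {a : ℕ} {θ : W.H U} (hθ : θ ∈ W.gr U (2 * a))
    (c : W.H (A.prod B)) :
    W.push (prA A B U) (W.map (prA A B U) c *
      W.map (prU A B U) (W.map (fst U U) θ * W.map (snd U U) θ)) =
      (W.tr U θ * W.tr U θ) • c := by
  apply W.tr_ext
  intro b
  rw [W.tr_push, smul_mul_assoc, map_smul, smul_eq_mul]
  have hev := W.even_comm (W.map_mem (prU A B U) (i := 2 * (a + a)) (by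
    rw [mul_add]; exact W.mul_mem (W.map_mem (fst U U) hθ) (W.map_mem (snd U U) hθ)))
    (W.map (prA A B U) b)
  rw [mul_assoc, hev, ← mul_assoc, ← map_mul]
  generalize c * b = d
  refine W.kunneth_induction (p := fun d => W.tr _ (W.map (prA A B U) d *
    W.map (prU A B U) (W.map (fst U U) θ * W.map (snd U U) θ)) =
      W.tr U θ * W.tr U θ * W.tr _ d) ?_ ?_ d
  · intro x y hx hy
    rw [map_add, add_mul, map_add, map_add, mul_add, hx, hy]
  · intro i j x hx y hy
    have e1 : W.map (prA A B U) (W.map (fst A B) x * W.map (snd A B) y) *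
        W.map (prU A B U) (W.map (fst U U) θ * W.map (snd U U) θ) =
        W.map (fst (A.prod U) (B.prod U)) (W.map (fst A U) x * W.map (snd A U) θ) *
          W.map (snd (A.prod U) (B.prod U)) (W.map (fst B U) y * W.map (snd B U) θ) := by
      simp only [map_mul, ← W.map_comp]
      rw [show prA A B U ≫ fst A B = fst (A.prod U) (B.prod U) ≫ fst A U from Obj.lift_fst _ _,
        show prA A B U ≫ snd A B = snd (A.prod U) (B.prod U) ≫ fst B U from Obj.lift_snd _ _,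
        show prU A B U ≫ fst U U = fst (A.prod U) (B.prod U) ≫ snd A U from Obj.lift_fst _ _,
        show prU A B U ≫ snd U U = snd (A.prod U) (B.prod U) ≫ snd B U from Obj.lift_snd _ _]
      have h2 := W.even_comm (W.map_mem (fst (A.prod U) (B.prod U) ≫ snd A U) hθ)
        (W.map (snd (A.prod U) (B.prod U) ≫ fst B U) y)
      rw [mul_assoc, ← mul_assoc (W.map (snd (A.prod U) (B.prod U) ≫ fst B U) y), ← h2]
      simp only [mul_assoc]
    rw [e1, W.tr_prod, W.tr_prod, W.tr_prod, W.tr_prod]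
    ring

/-- From `(A × U) × (B × U)` to `A × B`. -/
theorem abs_descend {A B U : 𝒱.Obj} {η : U.Cycles} (hη : U.IsCyc U.dim η)
    (h0 : U.V.degCycle η ≠ 0) (h : AllAbsolute Ψ E ((A.prod U).prod (B.prod U))) :
    AllAbsolute Ψ E (A.prod B) := by
  intro j c hc
  have hθ := isAbs_cyc Ψ E hη
  have h1 := isAbs_mul Ψ E (h j _ (isHodge_map Ψ (prA A B U) hc))
    (isAbs_map Ψ E (prU A B U) (isAbs_mul Ψ E (isAbs_map Ψ E (fst U U) hθ)
      (isAbs_map Ψ E (snd U U) hθ)))
  have h2 := isAbs_push Ψ E (prA A B U) (l := j) (by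
    simp only [dim_prod]
    omega) h1
  rw [push_prA A B U (W.cl_mem hη), W.tr_cl hη] at h2
  have h3 := isAbs_smul Ψ E ((U.V.degCycle η * U.V.degCycle η)⁻¹) h2
  rw [smul_smul] at h3
  have e : (((U.V.degCycle η * U.V.degCycle η)⁻¹ : ℚ) : W.K) *
      ((U.V.degCycle η : W.K) * (U.V.degCycle η : W.K)) = 1 := by
    rw [← Rat.cast_mul, ← Rat.cast_mul, inv_mul_cancel₀ (mul_ne_zero h0 h0), Rat.cast_one]
  rwa [e, one_smul] at h3

/-- **Full faithfulness on the products with the varieties `X i`.** -/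
theorem full_X [IsAlgClosed W.K] (hN : P.Nondegenerate)
    {𝒰 : Set 𝒱.Obj} (h𝒰 : ∀ U ∈ 𝒰, ∀ U' ∈ 𝒰, U.prod U' ∈ 𝒰) (hU : ∀ U ∈ 𝒰, IsIndependent Ψ F U)
    (hpt : ∃ U ∈ 𝒰, ∃ η, U.IsCyc U.dim η ∧ U.V.degCycle η ≠ 0)
    (hX : ∀ i, P.IsBuilt E (P.X i)) :
    FullyFaithfulOn Ψ E (productsWith 𝒰 P.X) ↔ FullyFaithfulOn Ψ E 𝒰 ∧ P.SquaresAbsolute E := by
  constructor
  · intro h
    refine ⟨fun A hA B hB => h A ⟨_, hA, [], ⟨Iso.refl _⟩⟩ B ⟨_, hB, [], ⟨Iso.refl _⟩⟩, ?_⟩
    intro i c _ hc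
    obtain ⟨U, hU', η, hη, h0⟩ := hpt
    have h1 : (P.X i).prod U ∈ productsWith 𝒰 P.X := ⟨U, hU', [i], ⟨Iso.refl _⟩⟩
    exact abs_descend hη h0 (abs_of_full_prod h h1 h1) _ c hc
  · rintro ⟨h, hP⟩
    exact (full_iff hP hN h𝒰 hU hX).2 h

section independent

variable {κ : Type} {F' : κ → Type} [∀ i, Field (F' i)] [∀ i, NumberField (F' i)]
  [∀ i, IsCMField (F' i)] {P' : CMPieces Ψ F'}

/-- The characters of products. -/
theorem char_prod {Z U : 𝒱.Obj} (hZ : P'.IsBuilt E Z) {s : RingAut W.K → ℤ}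
    (hs : IsCharacter Ψ (Z.prod U) s) : ∃ (L : List (Σ i, F' i →+* W.K)) (s' : RingAut W.K → ℤ),
      IsCharacter Ψ U s' ∧ s = lv P' L + s' := by
  obtain ⟨c, hc0, hc⟩ := hs
  obtain ⟨β, _, B, hB⟩ := exists_basis hZ
  choose L hL hL' using fun b => word_spec (hB b)
  obtain ⟨b, hb⟩ : ∃ b, ctr (B.coord b) c ≠ 0 := by
    by_contra hcon
    push Not at hcon
    apply hc0
    rw [expand B c]
    exact Finset.sum_eq_zero fun b _ => by rw [hcon b, map_zero, mul_zero]
  have h1 : IsWt Ψ U (s - lv P' (L b)) (ctr (B.coord b) c) :=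
    IsWt.coord B (m := fun b => lv P' (L b)) hL hc b
  exact ⟨L b, s - lv P' (L b), ⟨_, hb, h1⟩, by rw [add_sub_cancel]⟩

/-- The characters of built varieties. -/
theorem char_built {Z : 𝒱.Obj} (hZ : P'.IsBuilt E Z) {s : RingAut W.K → ℤ}
    (hs : IsCharacter Ψ Z s) : ∃ L : List (Σ i, F' i →+* W.K), s = lv P' L := by
  obtain ⟨c, hc0, hc⟩ := hs
  obtain ⟨β, _, B, hB⟩ := exists_basis hZ
  choose L hL hL' using fun b => word_spec (hB b)
  obtain ⟨b, hb⟩ : ∃ b, B.repr c b ≠ 0 := by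
    by_contra hcon
    push Not at hcon
    apply hc0
    rw [← B.sum_repr c]
    exact Finset.sum_eq_zero fun b _ => by rw [hcon b, zero_smul]
  exact ⟨L b, (IsWt.repr B (m := fun b => lv P' (L b)) hL hc b hb).symm⟩

/-- **Independent varieties.** -/
theorem independent_built (hd : IsDisjoint F F' W.K) {Z : 𝒱.Obj} (hZ : P'.IsBuilt E Z) :
    IsIndependent Ψ F Z := by
  obtain ⟨h, h1, h2⟩ := hd
  intro s hs
  obtain ⟨L, rfl⟩ := char_built hZ hs
  exact Or.inr ⟨h, h1, fun τ => lv_fix h2 L τ⟩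

theorem independent_prod (hd : IsDisjoint F F' W.K) {Z U : 𝒱.Obj} (hZ : P'.IsBuilt E Z)
    (hU : NoCharacters Ψ U) : IsIndependent Ψ F (Z.prod U) := by
  obtain ⟨h, h1, h2⟩ := hd
  intro s hs
  obtain ⟨L, s', hs', rfl⟩ := char_prod hZ hs
  rw [hU s' hs']
  exact Or.inr ⟨h, h1, fun τ => by rw [Pi.add_apply, Pi.add_apply, lv_fix h2 L τ]; rfl⟩

end independent

end Pool.Agent.T2H38.CP
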