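import Pool.Agent.T2H38.CP.Wt

/-!
# Letters and words
-/

set_option autoImplicit false
set_option linter.unusedSectionVars false

open CategoryTheory AlgebraicGeometry NumberField
open scoped TensorProduct

universe u v

namespace Pool.Agent.T2H38.CP

open Pool.Agent.H914 Pool.Agent.H914.VarClass Pool.Agent.H914.VarClass.Obj
  Pool.Agent.H914.WeilCohomology Pool.Agent.H281R3.HT Pool.Agent.W552 Pool.Agent.TH125.Gal
  Pool.Agent.Y132.AF Pool.Agent.Y132.AH

variable {k : Type u} [Field k] {𝒱 : VarClass k} {ops : CycleOps 𝒱}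
  {W : WeilCohomology.{u, 0} ops}

section geo

variable {X Y Z V : 𝒱.Obj}

/-- the morphism `1 × f` -/
noncomputable def idProd (X : 𝒱.Obj) (f : V ⟶ Z) : X.prod V ⟶ X.prod Z :=
  lift (fst X V) (snd X V ≫ f)

/-- Base change along any morphism. -/
theorem base_change' (f : V ⟶ Z) (c : W.H (X.prod Z)) :
    W.map f (W.push (snd X Z) c) = W.push (snd X V) (W.map (idProd X f) c) := by
  refine W.kunneth_induction (p := fun c => W.map f (W.push (snd X Z) c) =
    W.push (snd X V) (W.map (idProd X f) c)) ?_ ?_ c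
  · intro a b ha hb
    simp only [map_add, ha, hb]
  · intro i j a _ b _
    rw [push_snd, map_smul, map_mul, ← W.map_comp, ← W.map_comp, idProd, Obj.lift_fst,
      Obj.lift_snd, W.map_comp, push_snd]

/-- The pull-back of the image under a correspondence. -/
theorem map_corr (f : V ⟶ Z) (c : W.H (X.prod Z)) (x : W.H X) :
    W.map f (Y132.AH.corr W X Z c x) = Y132.AH.corr W X V (W.map (idProd X f) c) x := by
  rw [Y132.AH.corr_apply, Y132.AH.corr_apply, base_change', map_mul, ← W.map_comp, idProd,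
    Obj.lift_fst]

variable (𝒞 : ClassSystem W)

theorem ext_corr_left {c : W.H (X.prod Z)} (hc : c ∈ 𝒞.C (X.prod Z)) {x : W.H X} {y : W.H Y}
    (h : ext W x y ∈ 𝒞.C (X.prod Y)) :
    ext W (Y132.AH.corr W X Z c x) y ∈ 𝒞.C (Z.prod Y) := by
  rw [ext, Y132.AH.corr_apply, W.base_change, ← W.push_mul, map_mul (W.map _), mul_assoc]
  refine 𝒞.push_mem _ (𝒞.mul_mem (𝒞.map_mem _ hc) ?_)
  have h1 : W.map (p12 X Z Y) (W.map (fst X Z) x) * W.map (p23 X Z Y) (W.map (snd Z Y) y) =
      W.map (p13 X Z Y) (ext W x y) := by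
    rw [ext, map_mul, ← W.map_comp, ← W.map_comp, ← W.map_comp, ← W.map_comp]
    congr 3
    · rw [show p12 X Z Y ≫ fst X Z = fst X (Z.prod Y) from Obj.lift_fst _ _,
        show p13 X Z Y ≫ fst X Y = fst X (Z.prod Y) from Obj.lift_fst _ _]
    · rw [show p13 X Z Y ≫ snd X Y = p23 X Z Y ≫ snd Z Y from Obj.lift_snd _ _]
  rw [h1]
  exact 𝒞.map_mem _ h

theorem ext_swap {x : W.H X} {y : W.H Y} {i j : ℕ} (hx : x ∈ W.gr X i) (hy : y ∈ W.gr Y j)
    (h : ext W x y ∈ 𝒞.C (X.prod Y)) : ext W y x ∈ 𝒞.C (Y.prod X) := by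
  have h1 : ext W y x = (-1 : W.K) ^ (j * i) • W.map (swap Y X) (ext W x y) := by
    rw [ext, ext, map_mul, ← W.map_comp, ← W.map_comp, swap_fst, swap_snd]
    exact W.comm (W.map_mem (fst Y X) hy) (W.map_mem (snd Y X) hx)
  rw [h1]
  exact Submodule.smul_mem _ _ (𝒞.map_mem _ h)

/-- the product of two classes on the same variety -/
theorem mul_of_ext {x y : W.H Z} (h : ext W x y ∈ 𝒞.C (Z.prod Z)) : x * y ∈ 𝒞.C Z := by
  have h1 : x * y = W.map (diag Z) (ext W x y) := by
    rw [ext, map_mul, ← W.map_comp, ← W.map_comp, diag, Obj.lift_fst, Obj.lift_snd, W.map_id,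
      W.map_id]
  rw [h1]
  exact 𝒞.map_mem _ h

theorem one_mem_cls (Z : 𝒱.Obj) : (1 : W.H Z) ∈ 𝒞.C Z := 𝒞.alg_le _ algSpan_one

end geo

variable {Ψ : HodgeData W} {ι : Type} {F : ι → Type} [∀ i, Field (F i)] [∀ i, NumberField (F i)]
  [∀ i, IsCMField (F i)] (P : CMPieces Ψ F) (E : Embeddings W)

theorem bar_bar {F : Type} [Field F] [NumberField F] [IsCMField F] {K : Type} [Field K]
    (σ : F →+* K) : bar (bar σ) = σ := by
  ext x
  exact congrArg σ (IsCMField.complexConj_apply_apply F x)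

theorem bar_ne {F : Type} [Field F] [NumberField F] [IsCMField F] {K : Type} [Field K]
    (σ : F →+* K) : bar σ ≠ σ := by
  intro h
  have h2 : ∀ x : F, IsCMField.complexConj F x = x := by
    intro x
    exact σ.injective (RingHom.congr_fun h x)
  exact IsCMField.complexConj_ne_one F (AlgEquiv.ext h2)

theorem act_bar {F : Type} [Field F] [NumberField F] [IsCMField F] {K : Type} [Field K]
    (τ : RingAut K) (σ : F →+* K) : act τ (bar σ) = bar (act τ σ) := rfl

theorem act_mul {F : Type} [Field F] {K : Type} [Field K]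
    (τ τ' : RingAut K) (σ : F →+* K) : act (τ * τ') σ = act τ (act τ' σ) := rfl

theorem act_one {F : Type} [Field F] {K : Type} [Field K]
    (σ : F →+* K) : act (1 : RingAut K) σ = σ := by
  ext x
  rfl

theorem CMPieces.coeff (i : ι) (τ : RingAut W.K) (σ : F i →+* W.K) :
    (Ψ.on (P.X i)).coeff τ (P.x i σ) = P.x i (act τ σ) := (P.isPiece i).coeff τ σ

theorem CMPieces.hodge (i : ι) (σ : F i →+* W.K) :
    P.x i σ ∈ (Ψ.on (P.X i)).hodge (P.type i σ) := (P.isPiece i).hodge σ

theorem CMPieces.conj (i : ι) (σ : F i →+* W.K) : P.type i (bar σ) = (P.type i σ).swap :=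
  (P.isPiece i).conj σ

theorem CMPieces.sum (i : ι) (σ : F i →+* W.K) : (P.type i σ).1 + (P.type i σ).2 = P.deg i :=
  (P.isPiece i).sum σ

theorem level_bar (i : ι) (σ : F i →+* W.K) : P.level i (bar σ) = - P.level i σ := by
  rw [CMPieces.level, CMPieces.level, P.conj]
  simp

theorem isWt_x (i : ι) (σ : F i →+* W.K) :
    IsWt Ψ (P.X i) (fun τ => P.level i (act τ σ)) (P.x i σ) := fun τ =>
  ⟨_, _, by rw [show Ψ.coeff (P.X i) τ (P.x i σ) = P.x i (act τ σ) from P.coeff i τ σ]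
            exact P.hodge i (act τ σ), rfl⟩

theorem x_gr (i : ι) (σ : F i →+* W.K) : P.x i σ ∈ W.gr (P.X i) (P.deg i) := by
  have h1 := (Ψ.isHodgeDec (P.X i)).le (P.type i σ).1 (P.type i σ).2 (P.hodge i σ)
  rwa [P.sum] at h1

/-- **Squares.** -/
theorem ext_mem (hP : P.SquaresAbsolute E) (i : ι) (σ : F i →+* W.K) :
    ext W (P.x i σ) (P.x i (bar σ)) ∈ (absSystem Ψ E).C ((P.X i).prod (P.X i)) := by
  let V := square W (P.X i) (P.x i)
  have h1 : ext W (P.x i σ) (P.x i (bar σ)) ∈ V :=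
    Submodule.subset_span ⟨σ, bar σ, rfl⟩
  have h2 : ∀ τ, ∀ a ∈ V, Ψ.coeff _ τ a ∈ V := by
    intro τ a ha
    refine Submodule.span_induction (p := fun a _ => Ψ.coeff _ τ a ∈ V) ?_ ?_ ?_ ?_ ha
    · rintro _ ⟨σ, σ', rfl⟩
      refine Submodule.subset_span ⟨act τ σ, act τ σ', ?_⟩
      rw [map_mul, Ψ.map_coeff, Ψ.map_coeff]
      congr 2
      · exact P.coeff i τ σ
      · exact P.coeff i τ σ'
    · rw [map_zero]
      exact Submodule.zero_mem _
    · intro x y _ _ hx hy
      rw [map_add]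
      exact Submodule.add_mem _ hx hy
    · intro r x _ hx
      rw [coeff_smul]
      exact Submodule.smul_mem _ _ hx
  have h3 := mem_span_of_types (Ψ := Ψ) (j := P.deg i) V h2 h1 fun τ => ?_
  · refine (Submodule.span_le.2 ?_ : _ ≤ (absSystem Ψ E).C _) h3
    rintro c ⟨hc, hc'⟩
    exact Submodule.subset_span ⟨_, hP i c hc hc'⟩
  · have e1 : Ψ.coeff _ τ (ext W (P.x i σ) (P.x i (bar σ))) =
        W.map (fst (P.X i) (P.X i)) (P.x i (act τ σ)) *
          W.map (snd (P.X i) (P.X i)) (P.x i (bar (act τ σ))) := by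
      rw [ext, map_mul, Ψ.map_coeff, Ψ.map_coeff, ← act_bar]
      congr 2
      · exact P.coeff i τ σ
      · exact P.coeff i τ (bar σ)
    rw [e1]
    have h4 : W.map (fst (P.X i) (P.X i)) (P.x i (act τ σ)) *
          W.map (snd (P.X i) (P.X i)) (P.x i (bar (act τ σ))) ∈ Ψ.hodge _
          ((P.type i (act τ σ)).1 + (P.type i (bar (act τ σ))).1,
            (P.type i (act τ σ)).2 + (P.type i (bar (act τ σ))).2) :=
      (Ψ.isHodgeDec _).mul_mem
        (Ψ.map_hodge (fst (P.X i) (P.X i)) _ _ (P.hodge i (act τ σ)))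
        (Ψ.map_hodge (snd (P.X i) (P.X i)) _ _ (P.hodge i (bar (act τ σ))))
    have h5 := P.sum i (act τ σ)
    rw [P.conj, Prod.fst_swap, Prod.snd_swap, h5, add_comm (P.type i (act τ σ)).2, h5] at h4
    exact h4

/-- a letter: the image of an eigenvector -/
structure Lt (Z : 𝒱.Obj) where
  i : ι
  σ : F i →+* W.K
  j : ℕ
  z : W.H ((P.X i).prod Z)
  hz : IsAbsHodge Ψ E ((P.X i).prod Z) j z

namespace Lt

variable {P E} {Z : 𝒱.Obj}

/-- the class -/
noncomputable def val (l : Lt P E Z) : W.H Z := Y132.AH.corr W (P.X l.i) Z l.z (P.x l.i l.σ)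

/-- the label -/
def lab (l : Lt P E Z) : Σ i, F i →+* W.K := ⟨l.i, l.σ⟩

theorem isWt (l : Lt P E Z) : IsWt Ψ Z (fun τ => P.level l.i (act τ l.σ)) l.val :=
  (isWt_x P l.i l.σ).corr l.hz.1

theorem gr (l : Lt P E Z) : ∃ d, l.val ∈ W.gr Z d := l.isWt.gr

end Lt

variable {P E} {Z : 𝒱.Obj}

/-- the class of a list of letters -/
noncomputable def wordVal (L : List (Lt P E Z)) : W.H Z := (L.map Lt.val).prod

theorem wordVal_nil : wordVal ([] : List (Lt P E Z)) = 1 := rfl

theorem wordVal_cons (a : Lt P E Z) (L : List (Lt P E Z)) :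
    wordVal (a :: L) = a.val * wordVal L := by
  rw [wordVal, List.map_cons, List.prod_cons]
  rfl

theorem wordVal_append (L L' : List (Lt P E Z)) :
    wordVal (L ++ L') = wordVal L * wordVal L' := by
  rw [wordVal, List.map_append, List.prod_append]
  rfl

theorem wordVal_isWt (L : List (Lt P E Z)) :
    IsWt Ψ Z (fun τ => ((L.map Lt.lab).map fun a => P.level a.1 (act τ a.2)).sum) (wordVal L) := by
  induction L with
  | nil =>
    have h1 := IsWt.hodge (isAbs_one Ψ E Z).1
    exact h1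
  | cons a L ih =>
    rw [wordVal_cons]
    have h1 := a.isWt.mul ih
    intro τ
    obtain ⟨p, q, h2, h3⟩ := h1 τ
    exact ⟨p, q, h2, h3⟩

/-- moving a letter to the front -/
theorem wordVal_swap (L₁ L₂ : List (Lt P E Z)) (a : Lt P E Z) :
    ∃ ε : W.K, wordVal (L₁ ++ a :: L₂) = ε • (a.val * wordVal (L₁ ++ L₂)) := by
  obtain ⟨d, hd⟩ := a.gr
  obtain ⟨d', hd'⟩ := (wordVal_isWt L₁).gr
  refine ⟨(-1 : W.K) ^ (d' * d), ?_⟩
  rw [wordVal_append, wordVal_append, wordVal_cons, ← mul_assoc, W.comm hd' hd, smul_mul_assoc,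
    mul_assoc]

/-- the product of two opposite letters -/
theorem pair_mem (hP : P.SquaresAbsolute E) (a a' : Lt P E Z)
    (h : a'.lab = ⟨a.i, bar a.σ⟩) : a.val * a'.val ∈ (absSystem Ψ E).C Z := by
  obtain ⟨i, σ, j, z, hz⟩ := a
  obtain ⟨i', σ', j', z', hz'⟩ := a'
  change (⟨i', σ'⟩ : Σ i, F i →+* W.K) = ⟨i, bar σ⟩ at h
  obtain ⟨h1, h2⟩ := Sigma.mk.inj_iff.1 h
  subst h1
  rw [heq_eq_eq] at h2
  subst h2
  have habs : ∀ {j} {z : W.H ((P.X i').prod Z)}, IsAbsHodge Ψ E ((P.X i').prod Z) j z →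
    z ∈ (absSystem Ψ E).C ((P.X i').prod Z) := fun h => Submodule.subset_span ⟨_, h⟩
  apply mul_of_ext
  change ext W (Y132.AH.corr W (P.X i') Z z (P.x i' σ))
    (Y132.AH.corr W (P.X i') Z z' (P.x i' (bar σ))) ∈ _
  apply ext_corr_left _ (habs hz)
  obtain ⟨m, hm⟩ := Lt.gr (⟨i', bar σ, j', z', hz'⟩ : Lt P E Z)
  refine ext_swap _ hm (x_gr P i' σ) (ext_corr_left _ (habs hz') ?_)
  exact ext_swap _ (x_gr P i' σ) (x_gr P i' (bar σ)) (ext_mem P E hP i' σ)

open Classical in
/-- **Balanced words.** -/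
theorem balanced_mem (hP : P.SquaresAbsolute E) : ∀ (m : ℕ) (L : List (Lt P E Z)),
    L.length ≤ m → (∀ i (σ : F i →+* W.K),
      (L.map Lt.lab).count ⟨i, σ⟩ = (L.map Lt.lab).count ⟨i, bar σ⟩) →
      wordVal L ∈ (absSystem Ψ E).C Z := by
  intro m
  induction m with
  | zero =>
    intro L hL _
    rw [List.length_eq_zero_iff.1 (Nat.le_zero.1 hL), wordVal_nil]
    exact one_mem_cls _ _
  | succ m ih =>
    intro L hL hbal
    rcases L with _ | ⟨a, L⟩
    · rw [wordVal_nil]
      exact one_mem_cls _ _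
    · have hbne : (⟨a.i, bar a.σ⟩ : Σ i, F i →+* W.K) ≠ a.lab := by
        intro h1
        obtain ⟨-, h2⟩ := Sigma.mk.inj_iff.1 h1
        exact bar_ne a.σ (eq_of_heq h2)
      have h1 : (⟨a.i, bar a.σ⟩ : Σ i, F i →+* W.K) ∈ L.map Lt.lab := by
        have h2 := hbal a.i a.σ
        have h3 : 0 < ((a :: L).map Lt.lab).count a.lab := by
          rw [List.count_pos_iff]
          exact List.mem_cons_self
        change ((a :: L).map Lt.lab).count a.lab = _ at h2
        rw [h2, List.count_pos_iff, List.map_cons, List.mem_cons] at h3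
        rcases h3 with h3 | h3
        · exact absurd h3 hbne
        · exact h3
      obtain ⟨a', ha', hab⟩ := List.mem_map.1 h1
      obtain ⟨L₁, L₂, rfl⟩ := List.append_of_mem ha'
      obtain ⟨ε, hε⟩ := wordVal_swap L₁ L₂ a'
      rw [wordVal_cons, hε, mul_smul_comm, ← mul_assoc]
      refine Submodule.smul_mem _ _ ((absSystem Ψ E).mul_mem (pair_mem hP a a' hab)
        (ih _ ?_ fun i σ => ?_))
      · rw [List.length_cons, List.length_append, List.length_cons] at hL
        rw [List.length_append]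
        omega
      · have h2 := hbal i σ
        simp only [List.map_cons, List.map_append, List.count_cons, List.count_append,
          beq_iff_eq] at h2 ⊢
        rw [hab] at h2
        have h3 : ((⟨a.i, bar a.σ⟩ : Σ i, F i →+* W.K) = ⟨i, σ⟩) ↔ (a.lab = ⟨i, bar σ⟩) := by
          constructor
          · intro h
            obtain ⟨h4, h5⟩ := Sigma.mk.inj_iff.1 h
            subst h4
            rw [← eq_of_heq h5, bar_bar]
            rfl
          · intro h
            obtain ⟨h4, h5⟩ := Sigma.mk.inj_iff.1 h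
            subst h4
            rw [eq_of_heq h5, bar_bar]
        have h4 : ((⟨a.i, bar a.σ⟩ : Σ i, F i →+* W.K) = ⟨i, bar σ⟩) ↔ (a.lab = ⟨i, σ⟩) := by
          constructor
          · intro h
            obtain ⟨h4, h5⟩ := Sigma.mk.inj_iff.1 h
            subst h4
            have h6 := congrArg bar (eq_of_heq h5)
            rw [bar_bar, bar_bar] at h6
            rw [← h6]
            rfl
          · intro h
            obtain ⟨h4, h5⟩ := Sigma.mk.inj_iff.1 h
            subst h4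
            rw [eq_of_heq h5]
        simp only [h3, h4] at h2
        omega

/-- the words: products of a letters and an absolute Hodge class -/
def Words (P : CMPieces Ψ F) (E : Embeddings W) (Z : 𝒱.Obj) : Set (W.H Z) :=
  {v | ∃ (j : ℕ) (c : W.H Z) (L : List (Lt P E Z)), IsAbsHodge Ψ E Z j c ∧ v = c * wordVal L}

theorem words_mul {v v' : W.H Z} (hv : v ∈ Words P E Z) (hv' : v' ∈ Words P E Z) :
    v * v' ∈ Words P E Z := by
  obtain ⟨j, c, L, hc, rfl⟩ := hv
  obtain ⟨j', c', L', hc', rfl⟩ := hv'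
  refine ⟨j + j', c * c', L ++ L', isAbs_mul Ψ E hc hc', ?_⟩
  have h1 := W.even_comm (hodge_gr Ψ hc'.1) (wordVal L)
  rw [wordVal_append, mul_assoc c (wordVal L), ← mul_assoc (wordVal L), ← h1]
  simp only [mul_assoc]

/-- **The cohomology is spanned by words.** -/
theorem span_words (hZ : P.IsBuilt E Z) : Submodule.span W.K (Words P E Z) = ⊤ := by
  have h1 : Subalgebra.toSubmodule (Algebra.adjoin W.K (P.images E Z ∪
      {c | ∃ j, IsAbsHodge Ψ E Z j c})) = ⊤ := by
    rw [show Algebra.adjoin W.K (P.images E Z ∪ {c | ∃ j, IsAbsHodge Ψ E Z j c}) = ⊤ from hZ]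
    exact Algebra.top_toSubmodule
  rw [Algebra.adjoin_eq_span] at h1
  rw [eq_top_iff, ← h1]
  refine Submodule.span_mono fun v hv => ?_
  induction hv using Submonoid.closure_induction with
  | mem v hv =>
    rcases hv with hv | ⟨j, hj⟩
    · obtain ⟨i, σ, j, z, hz, rfl⟩ := hv
      refine ⟨0, 1, [⟨i, σ, j, z, hz⟩], isAbs_one Ψ E Z, ?_⟩
      rw [one_mul, wordVal_cons, wordVal_nil, mul_one]
      rfl
    · exact ⟨j, v, [], hj, by rw [wordVal_nil, mul_one]⟩
  | one => exact ⟨0, 1, [], isAbs_one Ψ E Z, by rw [wordVal_nil, mul_one]⟩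
  | mul x y _ _ hx hy => exact words_mul hx hy

/-- **A basis consisting of words.** -/
theorem exists_basis (hZ : P.IsBuilt E Z) : ∃ (β : Type) (_ : Fintype β)
    (B : Module.Basis β W.K (W.H Z)), ∀ b, B b ∈ Words P E Z := by
  obtain ⟨S, hS, hSspan, hSli⟩ := exists_linearIndependent W.K (Words P E Z)
  rw [span_words hZ] at hSspan
  have hfin : S.Finite := hSli.setFinite
  have := hfin.fintype
  refine ⟨S, this, Module.Basis.mk hSli (by rw [Subtype.range_coe]; exact hSspan.ge), fun b => ?_⟩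
  rw [Module.Basis.mk_apply]
  exact hS b.2

/-- The level of a word, and nondegenerate words. -/
theorem word_spec {v : W.H Z} (hv : v ∈ Words P E Z) : ∃ L : List (Σ i, F i →+* W.K),
    IsWt Ψ Z (fun τ => (L.map fun a => P.level a.1 (act τ a.2)).sum) v ∧
    (P.SquaresAbsolute E → P.Nondegenerate →
      (∀ τ : RingAut W.K, (L.map fun a => P.level a.1 (act τ a.2)).sum = 0) →
        v ∈ (absSystem Ψ E).C Z) := by
  obtain ⟨j, c, L, hc, rfl⟩ := hv
  refine ⟨L.map Lt.lab, ?_, fun hP hN h0 => ?_⟩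
  · have h1 := (IsWt.hodge hc.1).mul (wordVal_isWt L)
    rw [zero_add] at h1
    exact h1
  · refine (absSystem Ψ E).mul_mem (Submodule.subset_span ⟨j, hc⟩)
      (balanced_mem hP _ L le_rfl fun i σ => hN _ h0 i σ)

/-- **Pull-backs of images.** -/
theorem images_pull {V : 𝒱.Obj} (f : V ⟶ Z) {y : W.H Z} (hy : y ∈ P.images E Z) :
    W.map f y ∈ P.images E V := by
  obtain ⟨i, σ, j, z, hz, rfl⟩ := hy
  exact ⟨i, σ, j, W.map (idProd (P.X i) f) z, isAbs_map Ψ E _ hz, map_corr f z (P.x i σ)⟩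

/-- **Products.** -/
theorem IsBuilt.prod {Z' : 𝒱.Obj} (hZ : P.IsBuilt E Z) (hZ' : P.IsBuilt E Z') :
    P.IsBuilt E (Z.prod Z') := by
  have hpull : ∀ {V U : 𝒱.Obj} (f : V ⟶ U), P.IsBuilt E U → ∀ y : W.H U, W.map f y ∈
      Algebra.adjoin W.K (P.images E V ∪ {c | ∃ j, IsAbsHodge Ψ E V j c}) := by
    intro V U f hU y
    have hy : y ∈ Algebra.adjoin W.K (P.images E U ∪ {c | ∃ j, IsAbsHodge Ψ E U j c}) := by
      rw [show Algebra.adjoin W.K (P.images E U ∪ {c | ∃ j, IsAbsHodge Ψ E U j c}) = ⊤ from hU]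
      exact Algebra.mem_top
    have h1 : W.map f y ∈ (Algebra.adjoin W.K (P.images E U ∪
        {c | ∃ j, IsAbsHodge Ψ E U j c})).map (W.map f) := ⟨y, hy, rfl⟩
    rw [AlgHom.map_adjoin] at h1
    refine Algebra.adjoin_mono ?_ h1
    rintro _ ⟨a, ha | ⟨j, hj⟩, rfl⟩
    · exact Or.inl (images_pull f ha)
    · exact Or.inr ⟨j, isAbs_map Ψ E f hj⟩
  change Algebra.adjoin W.K _ = ⊤
  rw [eq_top_iff]
  intro w _
  obtain ⟨x, rfl⟩ := (W.kunneth Z Z').2 w
  induction x using TensorProduct.induction_on with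
  | zero => rw [map_zero]; exact Subalgebra.zero_mem _
  | add x y hx hy => rw [map_add]; exact Subalgebra.add_mem _ (hx trivial) (hy trivial)
  | tmul x y =>
    exact Subalgebra.mul_mem _ (hpull (fst Z Z') hZ x) (hpull (snd Z Z') hZ' y)

end Pool.Agent.T2H38.CP
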