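import Pool.Agent.T2H38.CP.Defs
import Pool.Agent.Y132.AH.Full

/-!
# Classes of pure level
-/

set_option autoImplicit false
set_option linter.unusedSectionVars false

open CategoryTheory AlgebraicGeometry NumberField
open scoped TensorProduct

universe u v

namespace Pool.Agent.T2H38.CP

open Pool.Agent.H914 Pool.Agent.H914.VarClass Pool.Agent.H914.VarClass.Obj
  Pool.Agent.H914.WeilCohomology Pool.Agent.H281R3.HT Pool.Agent.W552 Pool.Agent.TH125.Gal
  Pool.Agent.Y132.AF Pool.Agent.Y132.AH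

variable {k : Type u} [Field k] {𝒱 : VarClass k} {ops : CycleOps 𝒱}
  {W : WeilCohomology.{u, 0} ops} (Ψ : HodgeData W)

/-- all conjugates of `y` are of pure types `(p, q)` with the differences `p - q` given by `m` -/
def IsWt (X : 𝒱.Obj) (m : RingAut W.K → ℤ) (y : W.H X) : Prop :=
  ∀ τ : RingAut W.K, ∃ p q : ℕ, Ψ.coeff X τ y ∈ Ψ.hodge X (p, q) ∧ (p : ℤ) - q = m τ

variable {Ψ}

theorem coeff_mul {X : 𝒱.Obj} (τ τ' : RingAut W.K) (y : W.H X) :
    Ψ.coeff X (τ * τ') y = Ψ.coeff X τ (Ψ.coeff X τ' y) := by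
  rw [map_mul, RingAut.mul_apply]

theorem coeff_one {X : 𝒱.Obj} (y : W.H X) : Ψ.coeff X 1 y = y := by
  rw [map_one, RingAut.one_apply]

theorem coeff_smul {X : 𝒱.Obj} (τ : RingAut W.K) (r : W.K) (y : W.H X) :
    Ψ.coeff X τ (r • y) = τ r • Ψ.coeff X τ y := (Ψ.isCoeffAct X).smul τ r y

theorem exists_level (a : ℤ) : ∃ p q : ℕ, (p : ℤ) - q = a := by
  rcases le_total 0 a with h | h
  · exact ⟨a.toNat, 0, by rw [Int.toNat_of_nonneg h]; simp⟩
  · exact ⟨0, (-a).toNat, by rw [Int.toNat_of_nonneg (by omega)]; simp⟩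

theorem IsWt.zero {X : 𝒱.Obj} (m : RingAut W.K → ℤ) : IsWt Ψ X m 0 := by
  intro τ
  obtain ⟨p, q, h⟩ := exists_level (m τ)
  exact ⟨p, q, by rw [map_zero]; exact Submodule.zero_mem _, h⟩

theorem IsWt.hodge {X : 𝒱.Obj} {j : ℕ} {c : W.H X} (hc : IsHodge Ψ X j c) : IsWt Ψ X 0 c :=
  fun τ => ⟨j, j, by rw [hc.2 τ]; exact hc.1, by simp⟩

theorem IsWt.mul {X : 𝒱.Obj} {m m' : RingAut W.K → ℤ} {y y' : W.H X} (h : IsWt Ψ X m y)
    (h' : IsWt Ψ X m' y') : IsWt Ψ X (m + m') (y * y') := by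
  intro τ
  obtain ⟨p, q, h1, h2⟩ := h τ
  obtain ⟨p', q', h1', h2'⟩ := h' τ
  refine ⟨p + p', q + q', ?_, ?_⟩
  · rw [map_mul]
    exact (Ψ.isHodgeDec X).mul_mem h1 h1'
  · rw [Pi.add_apply, ← h2, ← h2']
    push_cast
    ring

theorem IsWt.map {X Y : 𝒱.Obj} (f : X ⟶ Y) {m : RingAut W.K → ℤ} {y : W.H Y}
    (h : IsWt Ψ Y m y) : IsWt Ψ X m (W.map f y) := by
  intro τ
  obtain ⟨p, q, h1, h2⟩ := h τ
  exact ⟨p, q, by rw [Ψ.map_coeff]; exact Ψ.map_hodge f _ _ h1, h2⟩

theorem IsWt.gr {X : 𝒱.Obj} {m : RingAut W.K → ℤ} {y : W.H X} (h : IsWt Ψ X m y) :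
    ∃ d, y ∈ W.gr X d := by
  obtain ⟨p, q, h1, -⟩ := h 1
  rw [coeff_one] at h1
  exact ⟨p + q, (Ψ.isHodgeDec X).le p q h1⟩

/-- The image under a Hodge correspondence. -/
theorem IsWt.corr {X Z : 𝒱.Obj} {m : RingAut W.K → ℤ} {x : W.H X} (h : IsWt Ψ X m x) {j : ℕ}
    {c : W.H (X.prod Z)} (hc : IsHodge Ψ (X.prod Z) j c) :
    IsWt Ψ Z m (Y132.AH.corr W X Z c x) := by
  intro τ
  obtain ⟨p, q, h1, h2⟩ := h τ
  have e1 : Ψ.coeff Z τ (Y132.AH.corr W X Z c x) = Y132.AH.corr W X Z c (Ψ.coeff X τ x) := by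
    rw [← corr_coeff, hc.2 τ]
  rw [e1]
  by_cases hpq : X.dim ≤ j + p ∧ X.dim ≤ j + q
  · refine ⟨j + p - X.dim, j + q - X.dim, ?_, ?_⟩
    · refine mem_of_prj (Ψ.isHodgeDec Z).isInternal fun l hl => corr_prj Ψ hc.1 h1 fun h3 => hl ?_
      rw [Prod.mk.injEq] at h3
      have h4 := h3.1
      have h5 := h3.2
      change l.1 + X.dim = j + p at h4
      change l.2 + X.dim = j + q at h5
      exact Prod.ext (by change l.1 = j + p - X.dim; omega)
        (by change l.2 = j + q - X.dim; omega)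
    · rw [← h2]
      have := hpq.1
      have := hpq.2
      omega
  · have e2 : Y132.AH.corr W X Z c (Ψ.coeff X τ x) = 0 := by
      refine ext_prj (Ψ.isHodgeDec Z).isInternal fun l => ?_
      rw [map_zero]
      refine corr_prj Ψ hc.1 h1 fun h3 => hpq ?_
      rw [Prod.mk.injEq] at h3
      have h4 := h3.1
      have h5 := h3.2
      change l.1 + X.dim = j + p at h4
      change l.2 + X.dim = j + q at h5
      exact ⟨by omega, by omega⟩
    rw [e2]
    exact ⟨p, q, Submodule.zero_mem _, h2⟩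

/-- **Descent.** The classes all of whose conjugates are of type `(j, j)`, in a stable subspace, are
combinations of Hodge classes. -/
theorem mem_span_of_types {X : 𝒱.Obj} {j : ℕ} {y : W.H X} (V : Submodule W.K (W.H X))
    (hV : ∀ τ, ∀ a ∈ V, Ψ.coeff X τ a ∈ V) (hyV : y ∈ V)
    (hy : ∀ τ, Ψ.coeff X τ y ∈ Ψ.hodge X (j, j)) :
    y ∈ Submodule.span W.K {c | c ∈ V ∧ IsHodge Ψ X j c} := by
  have hγ := Ψ.isCoeffAct X
  let U : Submodule W.K (W.H X) :=
    { carrier := {a | a ∈ V ∧ ∀ τ, Ψ.coeff X τ a ∈ Ψ.hodge X (j, j)}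
      zero_mem' := ⟨Submodule.zero_mem _, fun τ => by rw [map_zero]; exact Submodule.zero_mem _⟩
      add_mem' := fun ha hb => ⟨Submodule.add_mem _ ha.1 hb.1, fun τ => by
        rw [map_add]; exact Submodule.add_mem _ (ha.2 τ) (hb.2 τ)⟩
      smul_mem' := fun r a ha => ⟨Submodule.smul_mem _ _ ha.1, fun τ => by
        rw [coeff_smul]; exact Submodule.smul_mem _ _ (ha.2 τ)⟩ }
  have h1 := span_fixed_of_stable (γ := fun σ a => Ψ.coeff X σ a) (fun σ a b => map_add _ a b)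
    hγ.smul hγ.span (U := U) (fun τ a ha => ?_) (x := y) ⟨hyV, hy⟩
  · refine Submodule.span_mono ?_ h1
    rintro a ⟨⟨haV, ha⟩, hfix⟩
    refine ⟨haV, ?_, hfix⟩
    have h2 := ha 1
    rwa [coeff_one] at h2
  · exact ⟨hV τ a ha.1, fun τ' => by rw [← coeff_mul]; exact ha.2 _⟩

/-- A class of level zero is a combination of Hodge classes. -/
theorem IsWt.mem_span {X : 𝒱.Obj} {y : W.H X} (h : IsWt Ψ X 0 y) :
    ∃ j, y ∈ Submodule.span W.K {c | IsHodge Ψ X j c} := by
  obtain ⟨p, q, h1, h2⟩ := h 1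
  have hpq : q = p := by
    have : (p : ℤ) - q = 0 := h2
    omega
  subst hpq
  rw [coeff_one] at h1
  have hgr : y ∈ W.gr X (q + q) := (Ψ.isHodgeDec X).le q q h1
  refine ⟨q, ?_⟩
  have h3 := mem_span_of_types (Ψ := Ψ) (y := y) (j := q) ⊤ (fun _ _ _ => Submodule.mem_top)
    Submodule.mem_top fun τ => ?_
  · exact Submodule.span_mono (fun c hc => hc.2) h3
  · obtain ⟨p', q', h4, h5⟩ := h τ
    have hpq' : q' = p' := by
      have : (p' : ℤ) - q' = 0 := h5
      omega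
    subst hpq'
    have h6 : Ψ.coeff X τ y ∈ W.gr X (q + q) := (Ψ.isCoeffAct X).gr_mem τ _ y hgr
    have h7 : Ψ.coeff X τ y ∈ W.gr X (q' + q') := (Ψ.isHodgeDec X).le q' q' h4
    by_cases hqq : q' = q
    · rw [← hqq]
      exact h4
    · have h8 : Ψ.coeff X τ y = 0 := by
        rw [← prj_same (W.isInternal X) h6, prj_ne (W.isInternal X) (by omega) h7]
      rw [h8]
      exact Submodule.zero_mem _

/-- The projections of an external product. -/
theorem prj_ext {Z U : 𝒱.Obj} {l : ℕ × ℕ} {v : W.H Z} (hv : v ∈ Ψ.hodge Z l) (w : W.H U)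
    (m : ℕ × ℕ) : prj (Ψ.isHodgeDec (Z.prod U)).isInternal (l + m)
      (W.map (fst Z U) v * W.map (snd Z U) w) =
      W.map (fst Z U) v * W.map (snd Z U) (prj (Ψ.isHodgeDec U).isInternal m w) := by
  refine int_ind (p := fun w => prj (Ψ.isHodgeDec (Z.prod U)).isInternal (l + m)
      (W.map (fst Z U) v * W.map (snd Z U) w) =
      W.map (fst Z U) v * W.map (snd Z U) (prj (Ψ.isHodgeDec U).isInternal m w))
    (Ψ.isHodgeDec U).isInternal w (fun i w hw => ?_) (by simp) fun x y hx hy => ?_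
  · have h1 : W.map (fst Z U) v * W.map (snd Z U) w ∈ Ψ.hodge (Z.prod U) (l + i) :=
      (Ψ.isHodgeDec _).mul_mem (Ψ.map_hodge (fst Z U) l v hv) (Ψ.map_hodge (snd Z U) i w hw)
    by_cases him : i = m
    · subst him
      rw [prj_same _ h1, prj_same _ hw]
    · rw [prj_ne _ (fun h => him (add_left_cancel h)) h1, prj_ne _ him hw, map_zero, mul_zero]
  · simp only [map_add, mul_add, hx, hy]

theorem prj_ext_zero {Z U : 𝒱.Obj} {l : ℕ × ℕ} {v : W.H Z} (hv : v ∈ Ψ.hodge Z l) (w : W.H U)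
    {a : ℕ × ℕ} (ha : ∀ m, l + m ≠ a) : prj (Ψ.isHodgeDec (Z.prod U)).isInternal a
      (W.map (fst Z U) v * W.map (snd Z U) w) = 0 := by
  refine int_ind (p := fun w => prj (Ψ.isHodgeDec (Z.prod U)).isInternal a
      (W.map (fst Z U) v * W.map (snd Z U) w) = 0)
    (Ψ.isHodgeDec U).isInternal w (fun i w hw => ?_) (by simp) fun x y hx hy => ?_
  · have h1 : W.map (fst Z U) v * W.map (snd Z U) w ∈ Ψ.hodge (Z.prod U) (l + i) :=
      (Ψ.isHodgeDec _).mul_mem (Ψ.map_hodge (fst Z U) l v hv) (Ψ.map_hodge (snd Z U) i w hw)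
    exact prj_ne _ (ha i) h1
  · simp only [map_add, mul_add, hx, hy, add_zero]

/-- **Types of the coefficients.** -/
theorem prj_coord {Z U : 𝒱.Obj} {β : Type*} [Fintype β] [DecidableEq β] {v : β → W.H Z}
    {φ : β → (W.H Z →ₗ[W.K] W.K)} (hφ : ∀ b b', φ b (v b') = if b' = b then 1 else 0)
    {l : β → ℕ × ℕ} (hl : ∀ b, v b ∈ Ψ.hodge Z (l b)) {u : β → W.H U} {a : ℕ × ℕ}
    (hc : ∑ b, W.map (fst Z U) (v b) * W.map (snd Z U) (u b) ∈ Ψ.hodge (Z.prod U) a) (b : β)
    (m : ℕ × ℕ) (hm : l b + m ≠ a) : prj (Ψ.isHodgeDec U).isInternal m (u b) = 0 := by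
  classical
  have h1 : prj (Ψ.isHodgeDec (Z.prod U)).isInternal (l b + m)
      (∑ b, W.map (fst Z U) (v b) * W.map (snd Z U) (u b)) = 0 := prj_ne _ (Ne.symm hm) hc
  let w : β → W.H U := fun b' => if h : ∃ m', l b' + m' = l b + m then
    prj (Ψ.isHodgeDec U).isInternal h.choose (u b') else 0
  have hw : ∀ b', prj (Ψ.isHodgeDec (Z.prod U)).isInternal (l b + m)
      (W.map (fst Z U) (v b') * W.map (snd Z U) (u b')) =
      W.map (fst Z U) (v b') * W.map (snd Z U) (w b') := by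
    intro b'
    by_cases h : ∃ m', l b' + m' = l b + m
    · have e1 : w b' = prj (Ψ.isHodgeDec U).isInternal h.choose (u b') := dif_pos h
      rw [e1, ← prj_ext (hl b'), h.choose_spec]
    · have e1 : w b' = 0 := dif_neg h
      rw [e1, map_zero, mul_zero]
      exact prj_ext_zero (hl b') _ fun m' hm' => h ⟨m', hm'⟩
  have hwb : w b = prj (Ψ.isHodgeDec U).isInternal m (u b) := by
    have h : ∃ m', l b + m' = l b + m := ⟨m, rfl⟩
    have e1 : w b = prj (Ψ.isHodgeDec U).isInternal h.choose (u b) := dif_pos h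
    rw [e1, add_left_cancel h.choose_spec]
  rw [map_sum, Finset.sum_congr rfl fun b' _ => hw b'] at h1
  have h2 := congrArg (ctr (φ b)) h1
  rw [map_zero, map_sum, Finset.sum_congr rfl fun b' _ => ctr_apply (φ b) (v b') (w b'),
    Finset.sum_eq_single b] at h2
  · rw [hφ, if_pos rfl, one_smul] at h2
    rw [← hwb, h2]
  · intro b' _ hb'
    rw [hφ, if_neg hb', zero_smul]
  · intro h
    exact absurd (Finset.mem_univ _) h

/-- **The coefficients of a class of pure level** in a basis consisting of classes of pure level. -/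
theorem IsWt.coord {Z U : 𝒱.Obj} {β : Type*} [Fintype β] (B : Module.Basis β W.K (W.H Z))
    {m : β → RingAut W.K → ℤ} (hB : ∀ b, IsWt Ψ Z (m b) (B b)) {s : RingAut W.K → ℤ}
    {c : W.H (Z.prod U)} (hc : IsWt Ψ (Z.prod U) s c) (b : β) :
    IsWt Ψ U (s - m b) (ctr (B.coord b) c) := by
  classical
  intro τ
  -- the conjugate basis
  choose p q hpq hm using fun b => hB b τ
  obtain ⟨a, a', hcτ, ha⟩ := hc τ
  let φ : β → (W.H Z →ₗ[W.K] W.K) := fun b =>
    { toFun := fun x => τ (B.coord b (Ψ.coeff Z τ⁻¹ x))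
      map_add' := fun x y => by rw [map_add, map_add, map_add]
      map_smul' := fun r x => by
        rw [coeff_smul, map_smul, smul_eq_mul, map_mul, RingHom.id_apply, smul_eq_mul]
        congr 1
        rw [← RingAut.mul_apply, mul_inv_cancel, RingAut.one_apply] }
  have hφ : ∀ b b', φ b (Ψ.coeff Z τ (B b')) = if b' = b then 1 else 0 := by
    intro b b'
    change τ (B.coord b (Ψ.coeff Z τ⁻¹ (Ψ.coeff Z τ (B b')))) = _
    rw [← coeff_mul, inv_mul_cancel, coeff_one, Module.Basis.coord_apply,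
      Module.Basis.repr_self, Finsupp.single_apply]
    split_ifs <;> simp
  have hsum : Ψ.coeff (Z.prod U) τ c = ∑ b, W.map (fst Z U) (Ψ.coeff Z τ (B b)) *
      W.map (snd Z U) (Ψ.coeff U τ (ctr (B.coord b) c)) := by
    conv_lhs => rw [expand B c]
    rw [map_sum]
    refine Finset.sum_congr rfl fun b _ => ?_
    rw [map_mul, Ψ.map_coeff, Ψ.map_coeff]
  rw [hsum] at hcτ
  have key := fun m' hm' => prj_coord hφ (l := fun b => (p b, q b)) hpq hcτ b m' hm'
  by_cases h : p b ≤ a ∧ q b ≤ a'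
  · refine ⟨a - p b, a' - q b, ?_, ?_⟩
    · refine mem_of_prj (Ψ.isHodgeDec U).isInternal fun i hi => key i fun h1 => hi ?_
      have h2 := congrArg Prod.fst h1
      have h3 := congrArg Prod.snd h1
      change p b + i.1 = a at h2
      change q b + i.2 = a' at h3
      exact Prod.ext (by change i.1 = a - p b; omega) (by change i.2 = a' - q b; omega)
    · rw [Pi.sub_apply, ← hm b, ← ha]
      have := h.1
      have := h.2
      omega
  · have h0 : Ψ.coeff U τ (ctr (B.coord b) c) = 0 := by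
      refine ext_prj (Ψ.isHodgeDec U).isInternal fun i => ?_
      rw [map_zero]
      refine key i fun h1 => h ?_
      have h2 := congrArg Prod.fst h1
      have h3 := congrArg Prod.snd h1
      change p b + i.1 = a at h2
      change q b + i.2 = a' at h3
      exact ⟨by omega, by omega⟩
    rw [h0]
    obtain ⟨x, y, h1⟩ := exists_level ((s - m b) τ)
    exact ⟨x, y, Submodule.zero_mem _, h1⟩

/-- The levels of the basis vectors which occur in a class of pure level. -/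
theorem IsWt.repr {Z : 𝒱.Obj} {β : Type*} [Fintype β] (B : Module.Basis β W.K (W.H Z))
    {m : β → RingAut W.K → ℤ} (hB : ∀ b, IsWt Ψ Z (m b) (B b)) {s : RingAut W.K → ℤ}
    {c : W.H Z} (hc : IsWt Ψ Z s c) (b : β) (hb : B.repr c b ≠ 0) : m b = s := by
  classical
  funext τ
  choose p q hpq hm using fun b => hB b τ
  obtain ⟨a, a', hcτ, ha⟩ := hc τ
  have hsum : Ψ.coeff Z τ c = ∑ b, τ (B.repr c b) • Ψ.coeff Z τ (B b) := by
    conv_lhs => rw [← B.sum_repr c]
    rw [map_sum]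
    exact Finset.sum_congr rfl fun b _ => coeff_smul _ _ _
  by_contra hne
  have hne' : (p b, q b) ≠ (a, a') := by
    intro h
    rw [Prod.mk.injEq] at h
    apply hne
    rw [← hm b, ← ha, h.1, h.2]
  have h1 : prj (Ψ.isHodgeDec Z).isInternal (p b, q b) (Ψ.coeff Z τ c) = 0 :=
    prj_ne _ (Ne.symm hne') hcτ
  rw [hsum, map_sum] at h1
  have h2 : ∀ b', prj (Ψ.isHodgeDec Z).isInternal (p b, q b) (τ (B.repr c b') •
      Ψ.coeff Z τ (B b')) = (if (p b', q b') = (p b, q b) then τ (B.repr c b') else 0) •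
        Ψ.coeff Z τ (B b') := by
    intro b'
    rw [map_smul]
    split_ifs with h
    · rw [← h, prj_same _ (hpq b')]
    · rw [prj_ne _ h (hpq b'), smul_zero, zero_smul]
  rw [Finset.sum_congr rfl fun b' _ => h2 b'] at h1
  have h3 := congrArg (Ψ.coeff Z τ⁻¹) h1
  rw [map_zero, map_sum] at h3
  have h4 : ∀ b', Ψ.coeff Z τ⁻¹ ((if (p b', q b') = (p b, q b) then τ (B.repr c b') else 0) •
        Ψ.coeff Z τ (B b')) = (if (p b', q b') = (p b, q b) then B.repr c b' else 0) • B b' := by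
    intro b'
    rw [coeff_smul, ← coeff_mul, inv_mul_cancel, coeff_one]
    congr 1
    split_ifs
    · rw [← RingAut.mul_apply, inv_mul_cancel, RingAut.one_apply]
    · rw [map_zero]
  rw [Finset.sum_congr rfl fun b' _ => h4 b'] at h3
  have h5 := Fintype.linearIndependent_iff.1 B.linearIndependent _ h3 b
  rw [if_pos rfl] at h5
  exact hb h5

end Pool.Agent.T2H38.CP
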